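import Pool.Agent.H324.DT.Rel

/-!
Commutator calculus for a set `X` of elements of order three, closed under inverses, such that
products of four elements have trivial cube and three elements behave as in a group of
exponent three: commutators of weight four in elements of `X` are trivial.
-/

namespace Pool.Agent.H324.Alg

variable {G : Type*} [Group G]

open Pool.Agent.H324.TC (cc)

theorem cc_inv (g h : G) : (cc g h)⁻¹ = cc h g := by simp only [cc]; group

theorem cc_one_left (h : G) : cc 1 h = 1 := by simp [cc]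

theorem cc_eq_one {g h : G} : cc g h = 1 ↔ Commute g h := by
  unfold cc
  constructor
  · intro e
    have h1 : g * h = h * g * (g⁻¹ * h⁻¹ * g * h) := by group
    rw [e, mul_one] at h1
    exact h1
  · intro e
    have h1 : g⁻¹ * h⁻¹ * g * h = (h * g)⁻¹ * (g * h) := by group
    rw [h1, e.eq, inv_mul_cancel]

theorem cc_mul_left (g h k : G) : cc (g * h) k = h⁻¹ * cc g k * h * cc h k := by
  simp only [cc]; group

theorem cc_mul_right (g h k : G) : cc g (h * k) = cc g k * (k⁻¹ * cc g h * k) := by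
  simp only [cc]; group

theorem conj_eq (g h : G) : h⁻¹ * g * h = g * cc g h := by simp only [cc]; group

theorem conj_of {g h : G} (e : Commute g h) : h⁻¹ * g * h = g := by
  rw [mul_assoc, e.eq, inv_mul_cancel_left]

theorem cc_inv_left {g h : G} (e : Commute (cc g h) g) : cc g⁻¹ h = (cc g h)⁻¹ := by
  have h1 : cc g⁻¹ h = g * (cc g h)⁻¹ * g⁻¹ := by simp only [cc]; group
  rw [h1, (e.inv_left).eq.symm, mul_inv_cancel_right]

theorem cc_inv_right {g h : G} (e : Commute (cc g h) h) : cc g h⁻¹ = (cc g h)⁻¹ := by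
  have h1 : cc g h⁻¹ = h * (cc g h)⁻¹ * h⁻¹ := by simp only [cc]; group
  rw [h1, (e.inv_left).eq.symm, mul_inv_cancel_right]

/-- `g^n` and `h` -/
theorem cc_pow_left {g h : G} (e : Commute (cc g h) g) (n : ℕ) : cc (g ^ n) h = (cc g h) ^ n := by
  induction n with
  | zero => simp [cc_one_left]
  | succ n ih =>
    rw [pow_succ, cc_mul_left, ih, conj_of (e.pow_left n), pow_succ]

/-- groups with cubes: two elements generate a group of class two -/
theorem two_three {p q : G} (hp : p ^ 3 = 1) (hq : q ^ 3 = 1) (h1 : (p * q) ^ 3 = 1)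
    (h2 : (p * q⁻¹) ^ 3 = 1) : Commute p (q⁻¹ * p * q) := by
  have ep : p⁻¹ = p * p := by
    rw [inv_eq_iff_mul_eq_one, ← mul_assoc, ← hp, pow_succ, pow_two]
  have eq' : q⁻¹ = q * q := by
    rw [inv_eq_iff_mul_eq_one, ← mul_assoc, ← hq, pow_succ, pow_two]
  -- `p q⁻¹ p = q p⁻¹ q`
  have a1 : p * q⁻¹ * p = q * p⁻¹ * q := by
    have h : (p * q⁻¹ * p) * (q⁻¹ * p * q⁻¹) = 1 := by
      rw [← h2, pow_succ, pow_two]; simp only [mul_assoc]
    have h' := eq_inv_of_mul_eq_one_left h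
    rw [h', mul_inv_rev, mul_inv_rev, inv_inv, mul_assoc]
  -- `p q p = q⁻¹ p⁻¹ q⁻¹`
  have a2 : p * q * p = q⁻¹ * p⁻¹ * q⁻¹ := by
    have h : (p * q * p) * (q * p * q) = 1 := by
      rw [← h1, pow_succ, pow_two]; simp only [mul_assoc]
    have h' := eq_inv_of_mul_eq_one_left h
    rw [h', mul_inv_rev, mul_inv_rev, mul_assoc]
  have b1 : p * (q⁻¹ * p * q) = q * p⁻¹ * q⁻¹ := by
    calc p * (q⁻¹ * p * q) = (p * q⁻¹ * p) * q := by simp only [mul_assoc]
      _ = q * p⁻¹ * (q * q) := by rw [a1]; simp only [mul_assoc]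
      _ = q * p⁻¹ * q⁻¹ := by rw [← eq']
  have b2 : (q⁻¹ * p * q) * p = q * p⁻¹ * q⁻¹ := by
    calc (q⁻¹ * p * q) * p = q⁻¹ * (p * q * p) := by simp only [mul_assoc]
      _ = (q⁻¹ * q⁻¹) * p⁻¹ * q⁻¹ := by rw [a2]; simp only [mul_assoc]
      _ = q * p⁻¹ * q⁻¹ := by
        have : q⁻¹ * q⁻¹ = q := by
          rw [← mul_inv_rev, ← eq', inv_inv]
        rw [this]
  show p * (q⁻¹ * p * q) = (q⁻¹ * p * q) * p
  rw [b1, b2]

theorem class_two {p q : G} (hp : p ^ 3 = 1) (hq : q ^ 3 = 1) (h1 : (p * q) ^ 3 = 1)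
    (h2 : (p * q⁻¹) ^ 3 = 1) : Commute (cc p q) p ∧ Commute (cc p q) q := by
  have c1 : ∀ {p q : G}, p ^ 3 = 1 → q ^ 3 = 1 → (p * q) ^ 3 = 1 → (p * q⁻¹) ^ 3 = 1 →
      Commute (cc p q) p := by
    intro p q hp hq h1 h2
    have h := two_three hp hq h1 h2
    rw [conj_eq] at h
    have h3 : cc p q = p⁻¹ * (p * cc p q) := by rw [inv_mul_cancel_left]
    rw [h3]
    exact ((Commute.refl p).inv_left).mul_left h.symm
  refine ⟨c1 hp hq h1 h2, ?_⟩
  have h3 : (q * p) ^ 3 = 1 := by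
    have : q * p = q * (p * q) * q⁻¹ := by group
    rw [this, conj_pow, h1]; simp
  have h4 : (q * p⁻¹) ^ 3 = 1 := by
    have : q * p⁻¹ = (p * q⁻¹)⁻¹ := by group
    rw [this, inv_pow, h2, inv_one]
  have h5 := c1 hq hp h3 h4
  rw [← cc_inv]
  exact h5.inv_left

/-- the four commutator lemma -/
theorem four {A B C D : G} (h1 : Commute A B) (h2 : Commute C D) (h3 : Commute A C)
    (h4 : Commute B D) (h5 : Commute (A * B) (C * D)) : cc A D * cc B C = 1 := by
  have k1 : D⁻¹ * A * D * (C⁻¹ * B * C) = A * B := by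
    have e1 : (C * D)⁻¹ * (A * B) * (C * D) = A * B := conj_of h5
    have e2 : (C * D)⁻¹ * (A * B) * (C * D) =
        (D⁻¹ * (C⁻¹ * A * C) * D) * ((D⁻¹ * C⁻¹) * B * (C * D)) := by group
    have e3 : (D⁻¹ * C⁻¹) * B * (C * D) = C⁻¹ * B * C := by
      have : D⁻¹ * C⁻¹ = C⁻¹ * D⁻¹ := by
        rw [← mul_inv_rev, ← mul_inv_rev, h2.eq]
      rw [this, h2.eq]
      calc C⁻¹ * D⁻¹ * B * (D * C) = C⁻¹ * (D⁻¹ * B * D) * C := by simp only [mul_assoc]
        _ = C⁻¹ * B * C := by rw [conj_of h4]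
    rw [e2, e3, conj_of h3] at e1
    exact e1
  have k2 : Commute (cc A D) B := by
    unfold cc
    exact ((h1.inv_left.mul_left h4.symm.inv_left).mul_left h1).mul_left h4.symm
  have k3 : cc A D * cc B C = B⁻¹ * A⁻¹ * (D⁻¹ * A * D * (C⁻¹ * B * C)) := by
    have : cc A D * cc B C = (cc A D * B⁻¹) * (C⁻¹ * B * C) := by
      simp only [cc]; group
    rw [this, (k2.inv_right).eq]
    simp only [cc]; group
  rw [k3, k1]
  group

end Pool.Agent.H324.Alg
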