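import Pool.Agent.H324.DT.XS
import Pool.Agent.H324.DT.CertS
import Pool.Agent.H324.DT.CertN

/-!
The set `a D` for a class `D` of involutions in which products of two and of four elements have
trivial cube.
-/

namespace Pool.Agent.H324.Alg

open Pool.Agent.H324.TC

variable {G : Type*} [Group G]

/-- the set `a D` -/
def XD (a : G) (D : Set G) : Set G := {x | ∃ d ∈ D, x = a * d}

/-- `D` is normalised by the group generated by `a D` -/
theorem both {D : Set G} (h : DC D) {a : G} (ha : a ∈ D) : ∀ g ∈ Subgroup.closure (XD a D),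
    ∀ d ∈ D, g * d * g⁻¹ ∈ D ∧ g⁻¹ * d * g ∈ D := by
  intro g hg
  induction hg using Subgroup.closure_induction with
  | mem x hx =>
    obtain ⟨e, he, rfl⟩ := hx
    intro d hd
    constructor
    · have h1 := h.conj _ (h.conj d hd e he) a ha
      have h2 : (a * e) * d * (a * e)⁻¹ = a * (e * d * e) * a := by
        rw [mul_inv_rev, h.inv ha, h.inv he]; simp only [mul_assoc]
      rw [h2]; exact h1
    · have h1 := h.conj _ (h.conj d hd a ha) e he
      have h2 : (a * e)⁻¹ * d * (a * e) = e * (a * d * a) * e := by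
        rw [mul_inv_rev, h.inv ha, h.inv he]; simp only [mul_assoc]
      rw [h2]; exact h1
  | one => intro d hd; simpa using hd
  | mul x y _ _ hx hy =>
    intro d hd
    constructor
    · have := (hx _ (hy d hd).1).1
      have h2 : (x * y) * d * (x * y)⁻¹ = x * (y * d * y⁻¹) * x⁻¹ := by group
      rw [h2]; exact this
    · have := (hy _ (hx d hd).2).2
      have h2 : (x * y)⁻¹ * d * (x * y) = y⁻¹ * (x⁻¹ * d * x) * y := by group
      rw [h2]; exact this
  | inv x hx' hx =>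
    intro d hd
    rw [inv_inv]
    exact ⟨(hx d hd).2, (hx d hd).1⟩

theorem cc_conj (a x y : G) : a * cc x y * a⁻¹ = cc (a * x * a⁻¹) (a * y * a⁻¹) := by
  simp only [cc]; group

theorem cc_pow_right {g h : G} (e : Commute (cc g h) h) (n : ℕ) :
    cc g (h ^ n) = (cc g h) ^ n := by
  have e1 : Commute (cc h g) h := by rw [← cc_inv]; exact e.inv_left
  rw [← cc_inv (h ^ n) g, cc_pow_left e1, ← cc_inv g h, inv_pow, inv_inv]

theorem xs {D : Set G} (h : DC D) (h4 : ∀ a ∈ D, ∀ b ∈ D, ∀ c ∈ D, ∀ d ∈ D,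
    (a * b * c * d) ^ 3 = 1) {a : G} (ha : a ∈ D) : XS (XD a D) := by
  have haa : a * a = 1 := by rw [← pow_two]; exact h.sq a ha
  have inv : ∀ x ∈ XD a D, x⁻¹ ∈ XD a D := by
    rintro _ ⟨d, hd, rfl⟩
    refine ⟨a * d * a, h.conj d hd a ha, ?_⟩
    rw [mul_inv_rev, h.inv hd, h.inv ha]
    calc d * a = (a * a) * d * a := by rw [haa, one_mul]
      _ = a * (a * d * a) := by simp only [mul_assoc]
  have cube4 : ∀ x ∈ XD a D, ∀ y ∈ XD a D, ∀ z ∈ XD a D, ∀ t ∈ XD a D,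
      (x * y * (z * t)) ^ 3 = 1 := by
    rintro _ ⟨b, hb, rfl⟩ _ ⟨c, hc, rfl⟩ _ ⟨d, hd, rfl⟩ _ ⟨e, he, rfl⟩
    have h1 := h4 _ (h.conj b hb a ha) c hc _ (h.conj d hd a ha) e he
    have h2 : a * b * (a * c) * (a * d * (a * e)) = a * b * a * c * (a * d * a) * e := by
      simp only [mul_assoc]
    rw [h2]; exact h1
  have one : (1 : G) ∈ XD a D := ⟨a, ha, haa.symm⟩
  have cube2 : ∀ x ∈ XD a D, ∀ y ∈ XD a D, (x * y) ^ 3 = 1 := by
    intro x hx y hy
    have := cube4 x hx y hy 1 one 1 one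
    simpa using this
  have cube1 : ∀ x ∈ XD a D, x ^ 3 = 1 := by
    intro x hx
    have := cube2 x hx 1 one
    simpa using this
  have f2 : ∀ x ∈ XD a D, ∀ y ∈ XD a D, ∀ z ∈ XD a D, cc (cc (cc x y) z) z = 1 := by
    rintro _ ⟨b, hb, rfl⟩ _ ⟨c, hc, rfl⟩ _ ⟨d, hd, rfl⟩
    exact stA h h4 ha hb hc hd
  refine ⟨one, inv, cube4, f2, ?_, ?_, ?_⟩
  · rintro _ ⟨b, hb, rfl⟩ _ ⟨c, hc, rfl⟩ _ ⟨d, hd, rfl⟩
    exact stB h h4 ha hb hc hd
  · rintro _ ⟨b, hb, rfl⟩ _ ⟨c, hc, rfl⟩ _ ⟨d, hd, rfl⟩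
    exact stC h h4 ha hb hc hd
  · intro x hx y hy z hz
    have ainv : ∀ x ∈ XD a D, a * x * a⁻¹ = x⁻¹ := by
      rintro _ ⟨d, hd, rfl⟩
      rw [mul_inv_rev, h.inv ha, h.inv hd]
      calc a * (a * d) * a = (a * a) * d * a := by simp only [mul_assoc]
        _ = d * a := by rw [haa, one_mul]
    have e1 : a * cc x y * a⁻¹ = cc x y := by
      have k := class_two (cube1 x hx) (cube1 y hy) (cube2 x hx y hy)
        (cube2 x hx y⁻¹ (inv y hy))
      rw [cc_conj, ainv x hx, ainv y hy]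
      have k' := cc_inv_left k.1
      have k2 : Commute (cc x⁻¹ y) y := by rw [k']; exact k.2.inv_left
      rw [cc_inv_right k2, k', inv_inv]
    have sz : Commute (cc (cc x y) z) z := cc_eq_one.mp (f2 x hx y hy z hz)
    have e2 : a * cc (cc x y) z * a⁻¹ = (cc (cc x y) z)⁻¹ := by
      rw [cc_conj, e1, ainv z hz, cc_inv_right sz]
    have e3 : (cc (cc x y) z) ^ 3 = 1 := by
      rw [← cc_pow_right sz, cube1 z hz]; exact cc_eq_one.mpr (Commute.one_right _)
    have hmem : cc (cc x y) z ∈ Subgroup.closure (XD a D) := by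
      have mx := Subgroup.subset_closure (k := XD a D) hx
      have my := Subgroup.subset_closure (k := XD a D) hy
      have mz := Subgroup.subset_closure (k := XD a D) hz
      have cm : ∀ g ∈ Subgroup.closure (XD a D), ∀ k ∈ Subgroup.closure (XD a D),
          cc g k ∈ Subgroup.closure (XD a D) := fun g hg k hk =>
        mul_mem (mul_mem (mul_mem (inv_mem hg) (inv_mem hk)) hg) hk
      exact cm _ (cm _ mx _ my) _ mz
    generalize cc (cc x y) z = s at e2 e3 hmem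
    have e4 := (both h ha (s ^ 2) (pow_mem hmem 2) a ha).2
    refine ⟨_, e4, ?_⟩
    -- `a * (s⁻² a s²) = (a s⁻² a⁻¹) s² = s⁴ = s`
    have e5 : a * ((s ^ 2)⁻¹ * a * s ^ 2) = (a * (s ^ 2)⁻¹ * a⁻¹) * s ^ 2 := by
      have : a⁻¹ = a := h.inv ha
      rw [this]; simp only [mul_assoc]
    have e6 : a * (s ^ 2)⁻¹ * a⁻¹ = s ^ 2 := by
      have h1 : a * (s ^ 2)⁻¹ * a⁻¹ = ((a * s * a⁻¹) ^ 2)⁻¹ := by rw [conj_pow]; group
      rw [h1, e2, inv_pow, inv_inv]
    rw [e5, e6, ← pow_add]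
    have : s ^ (2 + 2) = s ^ 3 * s := by rw [← pow_succ]
    rw [this, e3, one_mul]

end Pool.Agent.H324.Alg
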