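import Pool.Agent.H324.DT.Loc

/-!
The group generated by a set `X` as in `XS` is a locally finite 3-group.
-/

universe u

namespace Pool.Agent.H324.Alg

open Subgroup
open Pool.Agent.H324.TC (cc)

variable {G : Type u} [Group G]

theorem comm_closure {X : Set G} {z : G} (hz : ∀ t ∈ X, Commute z t) :
    ∀ k ∈ closure X, Commute z k := by
  intro k hk
  induction hk using closure_induction with
  | mem x hx => exact hz x hx
  | one => exact Commute.one_right z
  | mul x y _ _ h1 h2 => exact h1.mul_right h2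
  | inv x _ h1 => exact h1.inv_right

namespace XS

variable {X : Set G} (h : XS X)
include h

/-- the commutators `[x,g]` -/
theorem gen_step {g y' : G} (hg : g ∈ closure X) (hy' : y' ∈ X)
    (ih : ∀ x ∈ X, Commute x (cc x g) ∧
      ∀ y ∈ X, ∀ t ∈ X, Commute (cc (cc x g) y) t) :
    ∀ x ∈ X, Commute x (cc x (g * y')) ∧
      ∀ y ∈ X, ∀ t ∈ X, Commute (cc (cc x (g * y')) y) t := by
  intro x hx
  obtain ⟨i1, i2⟩ := ih x hx
  have e1 : cc x (g * y') = cc x y' * (cc x g * cc (cc x g) y') := by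
    rw [cc_mul_right, conj_eq]
  have hcl : ∀ z : G, (∀ t ∈ X, Commute z t) → ∀ k ∈ closure X, Commute z k :=
    fun z hz => comm_closure hz
  have memX : ∀ z ∈ X, z ∈ closure X := fun z hz => subset_closure hz
  have cm : ∀ g ∈ closure X, ∀ k ∈ closure X, cc g k ∈ closure X := fun g hg k hk =>
    mul_mem (mul_mem (mul_mem (inv_mem hg) (inv_mem hk)) hg) hk
  have hz : ∀ t ∈ X, Commute (cc (cc x g) y') t := i2 y' hy'
  rw [e1]
  constructor
  · exact ((h.cl2 hx hy').1.symm).mul_right (i1.mul_right (hz x hx).symm)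
  · intro y hy
    -- `z = cc (cc x g) y'` is central
    have e2 : cc (cc x y' * (cc x g * cc (cc x g) y')) y =
        cc (cc x y') y * cc (cc x g) y := by
      have z1 : Commute (cc (cc x g) y') y := hz y hy
      have z2 : Commute (cc (cc x g) y') (cc (cc x g) y) :=
        hcl _ hz _ (cm _ (cm _ (memX x hx) _ hg) _ (memX y hy))
      have z3 : cc (cc x g * cc (cc x g) y') y = cc (cc x g) y := by
        rw [cc_mul_left, conj_of z2.symm, cc_eq_one.mpr z1, mul_one]
      rw [cc_mul_left, z3]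
      have s1 : Commute (cc (cc x y') y) (cc x g * cc (cc x g) y') :=
        hcl _ (fun t ht => h.weight4 hx hy' hy ht) _
          (mul_mem (cm _ (memX x hx) _ hg) (cm _ (cm _ (memX x hx) _ hg) _ (memX y' hy')))
      rw [conj_of s1]
    rw [e2]
    intro t ht
    exact (h.weight4 hx hy' hy ht).mul_left (i2 y hy t ht)

theorem gen_all {g : G} (hg : g ∈ closure X) :
    ∀ x ∈ X, Commute x (cc x g) ∧ ∀ y ∈ X, ∀ t ∈ X, Commute (cc (cc x g) y) t := by
  induction hg using closure_induction_right with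
  | one =>
    intro x _
    have : cc x 1 = 1 := by simp [cc]
    rw [this]
    refine ⟨Commute.one_right x, fun y _ t _ => ?_⟩
    rw [cc_one_left]
    exact Commute.one_left t
  | mul_right g hg y hy ih => exact h.gen_step hg hy ih
  | mul_inv_cancel g hg y hy ih => exact h.gen_step hg (h.inv y hy) ih

/-- elements of `X` commute with their conjugates -/
theorem conj_comm {g : G} (hg : g ∈ closure X) {x : G} (hx : x ∈ X) :
    Commute x (g⁻¹ * x * g) := by
  rw [conj_eq]
  exact (Commute.refl x).mul_right (h.gen_all hg x hx).1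

theorem lf : LF (closure X) := by
  -- normal closures of the elements of `X`
  let Cl : G → Set G := fun x => {u | ∃ g ∈ closure X, u = g⁻¹ * x * g}
  let EE : Set (Subgroup G) := {H | ∃ x ∈ X, H = closure (Cl x)}
  have hle : ∀ x ∈ X, closure (Cl x) ≤ closure X := by
    intro x hx
    rw [closure_le]
    rintro _ ⟨g, hg, rfl⟩
    exact mul_mem (mul_mem (inv_mem hg) (subset_closure hx)) hg
  have hEE : sSup EE = closure X := by
    apply le_antisymm
    · apply sSup_le
      rintro _ ⟨x, hx, rfl⟩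
      exact hle x hx
    · rw [closure_le]
      intro x hx
      have h1 : closure (Cl x) ≤ sSup EE := le_sSup ⟨x, hx, rfl⟩
      exact h1 (subset_closure ⟨1, one_mem _, by simp⟩)
  have hnorm : ∀ H ∈ EE, ∀ g ∈ closure X, ∀ e ∈ H, g * e * g⁻¹ ∈ H := by
    rintro _ ⟨x, hx, rfl⟩ g hg e he
    induction he using closure_induction with
    | mem u hu =>
      obtain ⟨k, hk, rfl⟩ := hu
      refine subset_closure ⟨k * g⁻¹, mul_mem hk (inv_mem hg), ?_⟩
      group
    | one => simp [one_mem]
    | mul a b _ _ ha hb =>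
      have : g * (a * b) * g⁻¹ = (g * a * g⁻¹) * (g * b * g⁻¹) := by group
      rw [this]; exact mul_mem ha hb
    | inv a _ ha =>
      have : g * a⁻¹ * g⁻¹ = (g * a * g⁻¹)⁻¹ := by group
      rw [this]; exact inv_mem ha
  rw [← hEE]
  refine lf_sSup EE ?_ ?_
  · rintro _ ⟨x, hx, rfl⟩
    refine lf_exp3 (exp_of_comm 3 ?_ ?_)
    · rintro _ ⟨g, hg, rfl⟩ _ ⟨k, hk, rfl⟩
      have h1 := h.conj_comm (mul_mem hk (inv_mem hg)) hx
      have h2 : Commute (g⁻¹ * x * (g⁻¹)⁻¹)
          (g⁻¹ * ((k * g⁻¹)⁻¹ * x * (k * g⁻¹)) * (g⁻¹)⁻¹) := (Commute.conj_iff g⁻¹).mpr h1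
      have h3 : g⁻¹ * ((k * g⁻¹)⁻¹ * x * (k * g⁻¹)) * (g⁻¹)⁻¹ = k⁻¹ * x * k := by group
      rw [h3, inv_inv] at h2
      exact h2
    · rintro _ ⟨g, _, rfl⟩
      have : g⁻¹ * x * g = g⁻¹ * x * (g⁻¹)⁻¹ := by rw [inv_inv]
      rw [this, conj_pow, h.cube1 hx]; simp
  · intro H hH g hg e he
    rw [hEE] at hg
    exact hnorm H hH g hg e he

end XS

end Pool.Agent.H324.Alg
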