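import Pool.Agent.H324.DT.XS
import Pool.Graph.R_seed8.H848.PS.SC

/-!
Locally finite 3-groups generated by normal subgroups; the group generated by a set `X` as in
`XS` is one.
-/

universe u

namespace Pool.Agent.H324.Alg

open Subgroup
open Pool.Agent.H324.TC (cc)

variable {G : Type u} [Group G]

/-- locally finite 3-group -/
def LF (P : Subgroup G) : Prop :=
  (∀ F : Subgroup G, F.FG → F ≤ P → Finite F) ∧ ∀ g ∈ P, ∃ k : ℕ, g ^ 3 ^ k = 1

/-- commuting elements of exponent `n` -/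
theorem exp_of_comm (n : ℕ) {S : Set G} (hc : ∀ x ∈ S, ∀ y ∈ S, Commute x y)
    (hn : ∀ x ∈ S, x ^ n = 1) : ∀ u ∈ closure S, u ^ n = 1 := by
  have hcc : ∀ u ∈ closure S, ∀ v ∈ closure S, Commute u v := by
    intro u hu v hv
    induction hu, hv using closure_induction₂ with
    | mem x y hx hy => exact hc x hx y hy
    | one_left x _ => exact Commute.one_left x
    | one_right x _ => exact Commute.one_right x
    | mul_left x y z _ _ _ h1 h2 => exact h1.mul_left h2
    | mul_right x y z _ _ _ h1 h2 => exact h1.mul_right h2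
    | inv_left x y _ _ h => exact h.inv_left
    | inv_right x y _ _ h => exact h.inv_right
  intro u hu
  induction hu using closure_induction with
  | mem x hx => exact hn x hx
  | one => exact one_pow n
  | mul x y hx hy h1 h2 => rw [(hcc x hx y hy).mul_pow, h1, h2, one_mul]
  | inv x _ h1 => rw [inv_pow, h1, inv_one]

/-- a subgroup of finite index in a finitely generated one, inside a locally finite one -/
theorem finite_of_sub {S F : Subgroup G} (hF : F.FG) (hL : ∀ E : Subgroup G, E.FG → E ≤ S → Finite E)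
    (hidx : (S.subgroupOf F).index ≠ 0) : Finite F := by
  have hFfg : Group.FG F := (Group.fg_iff_subgroup_fg F).mpr hF
  haveI : (S.subgroupOf F).FiniteIndex := ⟨hidx⟩
  have hNfg : (S.subgroupOf F).FG :=
    (Group.fg_iff_subgroup_fg _).mp (Subgroup.fg_of_index_ne_zero _)
  have hM : ((S.subgroupOf F).map F.subtype).FG := by
    classical
    obtain ⟨A, hA⟩ := hNfg
    exact ⟨A.image F.subtype, by rw [Finset.coe_image, ← MonoidHom.map_closure, hA]⟩
  have hMS : (S.subgroupOf F).map F.subtype ≤ S := by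
    rintro _ ⟨x, hx, rfl⟩
    exact hx
  have hfin := hL _ hM hMS
  have hfinN : Finite (S.subgroupOf F) :=
    Finite.of_injective
      (fun x : S.subgroupOf F => (⟨x.1.1, ⟨x.1, x.2, rfl⟩⟩ : (S.subgroupOf F).map F.subtype))
      (fun x y hxy => Subtype.ext (Subtype.ext (congrArg (fun z => z.1) hxy)))
  exact H15.Struct.finite_of_index _ hidx hfinN

theorem step {S H : Subgroup G} (hS : ∀ h ∈ S ⊔ H, ∀ s ∈ S, h * s * h⁻¹ ∈ S)
    (hL : LF S) (hL' : LF H) : LF (S ⊔ H) := by
  have hSH : ∀ h ∈ H, ∀ s ∈ S, h * s * h⁻¹ ∈ S := fun h hh =>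
    hS h ((le_sup_right : H ≤ S ⊔ H) hh)
  refine ⟨fun F hF hFS => ?_, fun g hg => ?_⟩
  · classical
    refine finite_of_sub hF hL.1 ?_
    obtain ⟨A, hA⟩ := hF
    have hdec : ∀ f : G, ∃ h : G, f ∈ A → h ∈ H ∧ f * h⁻¹ ∈ S := by
      intro f
      by_cases hf : f ∈ A
      · have h1 : f ∈ S ⊔ H := hFS (by rw [← hA]; exact subset_closure hf)
        obtain ⟨s, hs, h, hh, rfl⟩ := H848.PS.SCaux.mem_sup_of hSH h1
        exact ⟨h, fun _ => ⟨hh, by rwa [mul_inv_cancel_right]⟩⟩
      · exact ⟨1, fun h => absurd h hf⟩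
    choose φ hφ using hdec
    set H0 : Subgroup G := closure ((A.image φ : Finset G) : Set G) with hH0
    have hH0le : H0 ≤ H := by
      rw [hH0, closure_le]
      intro x hx
      obtain ⟨f, hf, rfl⟩ := Finset.mem_image.1 (Finset.mem_coe.1 hx)
      exact (hφ f hf).1
    have hH0fin : Finite H0 := hL'.1 H0 ⟨A.image φ, rfl⟩ hH0le
    have hFle : F ≤ S ⊔ H0 := by
      rw [← hA, closure_le]
      intro f hf
      have h1 : f = (f * (φ f)⁻¹) * φ f := by rw [inv_mul_cancel_right]
      rw [h1]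
      refine mul_mem ((le_sup_left : S ≤ S ⊔ H0) (hφ f hf).2)
        ((le_sup_right : H0 ≤ S ⊔ H0) (subset_closure ?_))
      exact Finset.mem_coe.2 (Finset.mem_image_of_mem φ hf)
    have hdec2 : ∀ f : F, ∃ h : H0, (f : G) * (h : G)⁻¹ ∈ S := by
      intro f
      obtain ⟨s, hs, h, hh, e⟩ := H848.PS.SCaux.mem_sup_of
        (fun h hh => hSH h (hH0le hh)) (hFle f.2)
      exact ⟨⟨h, hh⟩, by show (f : G) * h⁻¹ ∈ S; rw [e, mul_inv_cancel_right]; exact hs⟩
    choose ψ hψ using hdec2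
    have hfinQ : Finite (F ⧸ S.subgroupOf F) := by
      refine Finite.of_injective (fun q : F ⧸ S.subgroupOf F => ψ (Quotient.out q)) ?_
      intro q q' hqq
      have e1 := hψ (Quotient.out q)
      have e2 := hψ (Quotient.out q')
      simp only at hqq
      rw [hqq] at e1
      have e3 : ((Quotient.out q : F) : G) * ((Quotient.out q' : F) : G)⁻¹ ∈ S := by
        have := mul_mem e1 (inv_mem e2)
        rw [mul_inv_rev, inv_inv] at this
        have h2 : ((Quotient.out q : F) : G) * ((ψ (Quotient.out q') : G))⁻¹ *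
            ((ψ (Quotient.out q') : G) * ((Quotient.out q' : F) : G)⁻¹) =
            ((Quotient.out q : F) : G) * ((Quotient.out q' : F) : G)⁻¹ := by group
        rwa [h2] at this
      have e4 : ((Quotient.out q : F) : G)⁻¹ * ((Quotient.out q' : F) : G) ∈ S := by
        have hq' : ((Quotient.out q : F) : G)⁻¹ ∈ S ⊔ H :=
          inv_mem (hFS (Quotient.out q).2)
        have := hS _ hq' _ (inv_mem e3)
        have h2 : ((Quotient.out q : F) : G)⁻¹ *
            (((Quotient.out q : F) : G) * ((Quotient.out q' : F) : G)⁻¹)⁻¹ *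
            (((Quotient.out q : F) : G)⁻¹)⁻¹ =
            ((Quotient.out q : F) : G)⁻¹ * ((Quotient.out q' : F) : G) := by group
        rwa [h2] at this
      rw [← Quotient.out_eq' q, ← Quotient.out_eq' q']
      exact QuotientGroup.eq.mpr e4
    haveI : (S.subgroupOf F).FiniteIndex := Subgroup.finiteIndex_of_finite_quotient
    exact Subgroup.FiniteIndex.index_ne_zero
  · obtain ⟨s, hs, h, hh, rfl⟩ := H848.PS.SCaux.mem_sup_of hSH hg
    obtain ⟨k, hk⟩ := hL'.2 h hh
    have hp : ∀ n : ℕ, (s * h) ^ n * (h ^ n)⁻¹ ∈ S := by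
      intro n
      induction n with
      | zero => simp [one_mem]
      | succ n ih =>
        have e : (s * h) ^ (n + 1) * (h ^ (n + 1))⁻¹ =
            ((s * h) ^ n * (h ^ n)⁻¹) * (h ^ n * s * (h ^ n)⁻¹) := by
          rw [pow_succ, pow_succ]; group
        rw [e]
        exact mul_mem ih (hSH _ (pow_mem hh n) s hs)
    have h1 := hp (3 ^ k)
    rw [hk, inv_one, mul_one] at h1
    obtain ⟨j, hj⟩ := hL.2 _ h1
    exact ⟨k + j, by rw [pow_add, pow_mul]; exact hj⟩

theorem lf_bot : LF (⊥ : Subgroup G) := by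
  refine ⟨fun F _ hF => ?_, fun g hg => ⟨0, by rw [mem_bot] at hg; simp [hg]⟩⟩
  rw [le_bot_iff] at hF
  rw [hF]
  infer_instance

theorem fin_case (EE : Set (Subgroup G)) (h2 : ∀ H ∈ EE, LF H)
    (hn : ∀ H ∈ EE, ∀ g ∈ sSup EE, ∀ e ∈ H, g * e * g⁻¹ ∈ H) (s : Finset (Subgroup G)) :
    (∀ H ∈ s, H ∈ EE) → LF (s.sup id) ∧ s.sup id ≤ sSup EE ∧
      ∀ g ∈ sSup EE, ∀ e ∈ s.sup id, g * e * g⁻¹ ∈ s.sup id := by
  classical
  induction s using Finset.induction_on with
  | empty =>
    intro _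
    rw [Finset.sup_empty]
    exact ⟨lf_bot, bot_le, fun g _ e he => by rw [mem_bot] at he ⊢; simp [he]⟩
  | insert H s hHs ih =>
    intro h
    obtain ⟨h1, h3, h4⟩ := ih fun K hK => h K (Finset.mem_insert_of_mem hK)
    have hHE := h H (Finset.mem_insert_self _ _)
    have h5 : (insert H s).sup id = s.sup id ⊔ H := by
      rw [Finset.sup_insert, id, sup_comm]
    rw [h5]
    have h6 : s.sup id ⊔ H ≤ sSup EE := sup_le h3 (le_sSup hHE)
    exact ⟨step (fun g hg => h4 g (h6 hg)) h1 (h2 H hHE), h6,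
      fun g hg => H848.PS.SCaux.norm_sup (h4 g hg) (hn H hHE g hg)⟩

/-- a group generated by normal locally finite 3-subgroups is a locally finite 3-group -/
theorem lf_sSup (EE : Set (Subgroup G)) (h2 : ∀ H ∈ EE, LF H)
    (hn : ∀ H ∈ EE, ∀ g ∈ sSup EE, ∀ e ∈ H, g * e * g⁻¹ ∈ H) : LF (sSup EE) := by
  refine ⟨fun F hF hFE => ?_, fun g hg => ?_⟩
  · obtain ⟨A, hA⟩ := hF
    obtain ⟨s, hs, h⟩ := H848.PS.SCaux.exists_fin' EE A fun g hg => hFE (hA ▸ subset_closure hg)
    refine (fin_case EE h2 hn s hs).1.1 F ⟨A, hA⟩ ?_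
    rw [← hA, closure_le]
    exact h
  · obtain ⟨s, hs, h⟩ := H848.PS.SCaux.exists_fin EE hg
    exact (fin_case EE h2 hn s hs).1.2 g h

/-- exponent three -/
theorem lf_exp3 {P : Subgroup G} (h : ∀ g ∈ P, g ^ 3 = 1) : LF P := by
  refine ⟨fun F hF hFP => ?_, fun g hg => ⟨1, by rw [pow_one]; exact h g hg⟩⟩
  have hFfg : Group.FG F := (Group.fg_iff_subgroup_fg F).mpr hF
  refine H15.Struct.finite_exp3 hFfg fun g => ?_
  exact Subtype.ext (h g.1 (hFP g.2))

end Pool.Agent.H324.Alg
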