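import Pool.Agent.H324.DT.CertP

/-! If the product of any two involutions has order dividing six, the relation `(a b)³ = 1` is
transitive on the set of the elements with trivial square. -/

namespace Pool.Agent.H324.TC

variable {G : Type*} [Group G]

theorem swap3 {a b : G} {n : ℕ} (h : (a * b) ^ n = 1) : (b * a) ^ n = 1 := by
  have h1 : b * a = b * (a * b) * b⁻¹ := by group
  rw [h1, conj_pow, h]; simp

theorem conj_prod {d b : G} (hd : d ^ 2 = 1) (hb : b ^ 2 = 1) (n : ℕ) :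
    d * (d * b) ^ n * d = ((d * b) ^ n)⁻¹ := by
  have e1 := inv_of_sq hd
  have e2 := inv_of_sq hb
  have h1 : d * (d * b) ^ n * d = d * (d * b) ^ n * d⁻¹ := by rw [e1]
  rw [h1, ← conj_pow, ← inv_pow]
  congr 1
  rw [mul_inv_rev, e1, e2]
  rw [pow_two] at hd
  calc d * (d * b) * d = d * d * b * d := by simp only [mul_assoc]
    _ = b * d := by rw [hd, one_mul]

theorem prod_conj {d b : G} (hd : d ^ 2 = 1) (hb : b ^ 2 = 1) (n : ℕ) :
    b * (d * b) ^ n * b = ((d * b) ^ n)⁻¹ := by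
  have e1 := inv_of_sq hd
  have e2 := inv_of_sq hb
  have h1 : b * (d * b) ^ n * b = b * (d * b) ^ n * b⁻¹ := by rw [e2]
  rw [h1, ← conj_pow, ← inv_pow]
  congr 1
  rw [mul_inv_rev, e1, e2]
  rw [pow_two] at hb
  calc b * (d * b) * b = b * d * (b * b) := by simp only [mul_assoc]
    _ = b * d := by rw [hb, mul_one]

theorem sq_of_conj {d s : G} (hs : s ^ 2 = 1) (h : d * s * d = s⁻¹) : (d * s) ^ 2 = 1 := by
  rw [inv_of_sq hs] at h
  calc (d * s) ^ 2 = d * s * d * s := by rw [pow_two]; simp only [mul_assoc]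
    _ = 1 := by rw [h, ← pow_two, hs]

/-- **Transitivity.** -/
theorem trans (H : H2 G) {d a b : G} (hd : d ^ 2 = 1) (ha : a ^ 2 = 1) (hb : b ^ 2 = 1)
    (h1 : (d * a) ^ 3 = 1) (h2 : (a * b) ^ 3 = 1) : (d * b) ^ 3 = 1 := by
  obtain ⟨s, hsd⟩ : ∃ s, s = (d * b) ^ 3 := ⟨_, rfl⟩
  have hs : s ^ 2 = 1 := by rw [hsd, ← pow_mul]; exact H d b hd hb
  have hds : (d * s) ^ 2 = 1 := sq_of_conj hs (by rw [hsd]; exact conj_prod hd hb 3)
  have hbs : (b * s) ^ 2 = 1 := sq_of_conj hs (by rw [hsd]; exact prod_conj hd hb 3)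
  obtain ⟨t, htd⟩ : ∃ t, t = (a * s) ^ 3 := ⟨_, rfl⟩
  have ht : t ^ 2 = 1 := by rw [htd, ← pow_mul]; exact H a s ha hs
  have hst : s * t * s = t⁻¹ := by rw [htd]; exact prod_conj ha hs 3
  have e1 : (d * s * t) ^ 3 = 1 := by rw [htd]; exact stP H hd ha hs h1 hds
  have e2 : (b * s * t) ^ 3 = 1 := by rw [htd]; exact stP H hb ha hs (swap3 h2) hbs
  have hss : s * s = 1 := by rw [← pow_two]; exact hs
  have hbb : b * s = s * b := by
    have h3 : (b * s)⁻¹ = b * s := inv_of_sq hbs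
    rw [mul_inv_rev, inv_of_sq hs, inv_of_sq hb] at h3
    exact h3.symm
  have hprod : d * s * (b * s) = d * b := by
    rw [hbb]
    calc d * s * (s * b) = d * (s * s) * b := by simp only [mul_assoc]
      _ = d * b := by rw [hss, mul_one]
  have h3 : (t * (d * s * (b * s)) ^ 3) ^ 2 = 1 := by
    rw [hprod, ← hsd]
    calc (t * s) ^ 2 = t * (s * t * s) := by rw [pow_two]; simp only [mul_assoc]
      _ = 1 := by rw [hst, mul_inv_cancel]
  have h4 := stQ H hds ht hbs e1 (swap3 e2) h3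
  rw [hprod] at h4
  exact h4

end Pool.Agent.H324.TC
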