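import Pool.Agent.H324.DT.Gen
import Pool.Agent.H324.DT.Cls
import Pool.Agent.H324.DT.Trans
import Pool.Graph.R_seed8.H848.PS.Main

/-!
Groups in which the product of any two involutions has order dividing six and the product of
four involutions never has order nine: the subgroup generated by the involutions.
-/

universe u

namespace Pool.Agent.H324.Alg

open Subgroup
open Pool.Agent.H324.TC

variable {G : Type u} [Group G]

/-- products of four involutions do not have order nine -/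
def H9 (G : Type u) [Group G] : Prop := ∀ a b c d : G, a ^ 2 = 1 → b ^ 2 = 1 → c ^ 2 = 1 →
  d ^ 2 = 1 → (a * b * c * d) ^ 9 = 1 → (a * b * c * d) ^ 3 = 1

/-- the class of `d` -/
def Dd (d : G) : Set G := {e | e ^ 2 = 1 ∧ (d * e) ^ 3 = 1}

/-- the subgroup generated by the elements with trivial square -/
def T (G : Type u) [Group G] : Subgroup G := closure {t : G | t ^ 2 = 1}

theorem dd_self {d : G} (hd : d ^ 2 = 1) : d ∈ Dd d :=
  ⟨hd, by rw [← pow_two, hd, one_pow]⟩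

theorem conj_sq {a b : G} (ha : a ^ 2 = 1) (hb : b ^ 2 = 1) :
    (a * (b * a * b)) ^ 3 = (a * b) ^ 6 := by
  have h1 : a * (b * a * b) = (a * b) ^ 2 := by rw [pow_two]; simp only [mul_assoc]
  rw [h1, ← pow_mul]

theorem dc (H : H2 G) {d : G} (hd : d ^ 2 = 1) : DC (Dd d) := by
  refine ⟨fun e he => he.1, fun e he f hf => ?_, fun e he f hf => ?_⟩
  · refine ⟨sq_conj he.1 hf.1, ?_⟩
    refine trans H hd he.1 (sq_conj he.1 hf.1) he.2 ?_
    rw [conj_sq he.1 hf.1]
    exact H e f he.1 hf.1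
  · exact trans H he.1 hd hf.1 (swap3 he.2) hf.2

theorem dd_conj (H : H2 G) {d e t : G} (hd : d ^ 2 = 1) (he : e ∈ Dd d) (ht : t ^ 2 = 1) :
    t * e * t ∈ Dd d := by
  refine ⟨sq_conj he.1 ht, trans H hd he.1 (sq_conj he.1 ht) he.2 ?_⟩
  rw [conj_sq he.1 ht]
  exact H e t he.1 ht

theorem four_cube (H : H2 G) (h9 : H9 G) {d : G} (hd : d ^ 2 = 1) : ∀ a ∈ Dd d, ∀ b ∈ Dd d,
    ∀ c ∈ Dd d, ∀ e ∈ Dd d, (a * b * c * e) ^ 3 = 1 := by
  intro a ha b hb c hc e he
  exact h9 a b c e ha.1 hb.1 hc.1 he.1 (ninth (dc H hd) ha hb hc he)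

/-- the subgroup of the class of `d` -/
def Kd (d : G) : Subgroup G := closure (XD d (Dd d))

theorem kd_lf (H : H2 G) (h9 : H9 G) {d : G} (hd : d ^ 2 = 1) : LF (Kd d) :=
  (xs (dc H hd) (four_cube H h9 hd) (dd_self hd)).lf

theorem kd_prod (H : H2 G) {d e f : G} (he : e ∈ Dd d) (hf : f ∈ Dd d) :
    e * f ∈ Kd d := by
  have h1 : d * e ∈ Kd d := subset_closure ⟨e, he, rfl⟩
  have h2 : d * f ∈ Kd d := subset_closure ⟨f, hf, rfl⟩
  have h3 := mul_mem (inv_mem h1) h2
  rw [mul_inv_rev, inv_of_sq he.1] at h3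
  have : e * d⁻¹ * (d * f) = e * f := by group
  rwa [this] at h3

theorem kd_norm_inv (H : H2 G) {d : G} (hd : d ^ 2 = 1) {t : G} (ht : t ^ 2 = 1) :
    ∀ k ∈ Kd d, t * k * t⁻¹ ∈ Kd d := by
  intro k hk
  have hk' : k ∈ closure (XD d (Dd d)) := hk
  induction hk' using closure_induction with
  | mem x hx =>
    obtain ⟨e, he, rfl⟩ := hx
    have h1 := kd_prod H (dd_conj H hd (dd_self hd) ht) (dd_conj H hd he ht)
    have h2 : t * d * t * (t * e * t) = t * (d * e) * t⁻¹ := by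
      rw [inv_of_sq ht]
      rw [pow_two] at ht
      calc t * d * t * (t * e * t) = t * d * (t * t) * e * t := by simp only [mul_assoc]
        _ = t * (d * e) * t := by rw [ht, mul_one]; simp only [mul_assoc]
    rw [← h2]; exact h1
  | one => simp [one_mem]
  | mul a b ha' hb' ha hb =>
    have : t * (a * b) * t⁻¹ = (t * a * t⁻¹) * (t * b * t⁻¹) := by group
    rw [this]; exact mul_mem (ha ha') (hb hb')
  | inv a ha' ha =>
    have : t * a⁻¹ * t⁻¹ = (t * a * t⁻¹)⁻¹ := by group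
    rw [this]; exact inv_mem (ha ha')

theorem kd_norm (H : H2 G) {d : G} (hd : d ^ 2 = 1) : ∀ g ∈ T G, ∀ k ∈ Kd d,
    g * k * g⁻¹ ∈ Kd d := by
  intro g hg
  have hg' : g ∈ closure {t : G | t ^ 2 = 1} := hg
  have key : ∀ g ∈ closure {t : G | t ^ 2 = 1}, ∀ k ∈ Kd d,
      g * k * g⁻¹ ∈ Kd d ∧ g⁻¹ * k * g ∈ Kd d := by
    intro g hg
    induction hg using closure_induction with
    | mem t ht =>
      intro k hk
      have h1 := kd_norm_inv H hd ht k hk
      refine ⟨h1, ?_⟩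
      rw [inv_of_sq ht] at h1 ⊢
      exact h1
    | one => intro k hk; simpa using hk
    | mul a b _ _ ha hb =>
      intro k hk
      have e1 : (a * b) * k * (a * b)⁻¹ = a * (b * k * b⁻¹) * a⁻¹ := by group
      have e2 : (a * b)⁻¹ * k * (a * b) = b⁻¹ * (a⁻¹ * k * a) * b := by group
      rw [e1, e2]
      exact ⟨(ha _ (hb k hk).1).1, (hb _ (ha k hk).2).2⟩
    | inv a _ ha =>
      intro k hk
      rw [inv_inv]
      exact ⟨(ha k hk).2, (ha k hk).1⟩
  intro k hk
  exact (key g hg' k hk).1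

theorem kd_le {d : G} (hd : d ^ 2 = 1) : Kd d ≤ T G := by
  unfold Kd
  rw [closure_le]
  rintro _ ⟨e, he, rfl⟩
  exact mul_mem (subset_closure hd) (subset_closure he.1)

/-- the family of the subgroups of classes -/
def EE (G : Type u) [Group G] : Set (Subgroup G) := {K | ∃ d : G, d ^ 2 = 1 ∧ K = Kd d}

/-- the normal 3-subgroup -/
def R (G : Type u) [Group G] : Subgroup G := sSup (EE G)

theorem r_le : R G ≤ T G := by
  apply sSup_le
  rintro _ ⟨d, hd, rfl⟩
  exact kd_le hd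

theorem r_lf (H : H2 G) (h9 : H9 G) : LF (R G) := by
  refine lf_sSup (EE G) ?_ ?_
  · rintro _ ⟨d, hd, rfl⟩
    exact kd_lf H h9 hd
  · rintro _ ⟨d, hd, rfl⟩ g hg e he
    exact kd_norm H hd g (r_le hg) e he

theorem dd_map {d e : G} (g : G) (he : e ∈ Dd d) : g * e * g⁻¹ ∈ Dd (g * d * g⁻¹) := by
  refine ⟨by rw [conj_pow, he.1]; simp, ?_⟩
  have : g * d * g⁻¹ * (g * e * g⁻¹) = g * (d * e) * g⁻¹ := by group
  rw [this, conj_pow, he.2]; simp

theorem r_normal : (R G).Normal := by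
  refine ⟨fun n hn g => ?_⟩
  have h1 : R G ≤ (R G).comap (MulAut.conj g).toMonoidHom := by
    apply sSup_le
    rintro _ ⟨d, hd, rfl⟩
    unfold Kd
    rw [closure_le]
    rintro _ ⟨e, he, rfl⟩
    show g * (d * e) * g⁻¹ ∈ R G
    have h2 : Kd (g * d * g⁻¹) ≤ R G :=
      le_sSup ⟨g * d * g⁻¹, by rw [conj_pow, hd]; simp, rfl⟩
    refine h2 (subset_closure ⟨g * e * g⁻¹, dd_map g he, ?_⟩)
    group
  exact h1 hn

theorem comm_sq_mem (H : H2 G) {a b : G} (ha : a ^ 2 = 1) (hb : b ^ 2 = 1) :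
    (a * b) ^ 2 ∈ R G := by
  have h1 : Kd a ≤ R G := le_sSup ⟨a, ha, rfl⟩
  refine h1 (subset_closure ⟨b * a * b, ⟨sq_conj ha hb, ?_⟩, ?_⟩)
  · rw [conj_sq ha hb]; exact H a b ha hb
  · rw [pow_two]; simp only [mul_assoc]

theorem sq_mem_r (H : H2 G) : ∀ t ∈ T G, t ^ 2 ∈ R G := by
  haveI := r_normal (G := G)
  intro t ht
  have hmap : ((QuotientGroup.mk' (R G)) t) ∈
      closure ((QuotientGroup.mk' (R G)) '' {t : G | t ^ 2 = 1}) := by
    rw [← MonoidHom.map_closure]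
    exact mem_map_of_mem _ ht
  have h1 := exp_of_comm 2 (S := (QuotientGroup.mk' (R G)) '' {t : G | t ^ 2 = 1}) ?_ ?_ _ hmap
  · rw [← map_pow] at h1
    exact (QuotientGroup.eq_one_iff _).mp h1
  · rintro _ ⟨a, ha, rfl⟩ _ ⟨b, hb, rfl⟩
    have h2 := comm_sq_mem H ha hb
    have h3 : (QuotientGroup.mk' (R G)) ((a * b) ^ 2) = 1 := (QuotientGroup.eq_one_iff _).mpr h2
    have ha2 : (QuotientGroup.mk' (R G)) a ^ 2 = 1 := by
      rw [← map_pow]
      have : a ^ 2 = 1 := ha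
      rw [this, map_one]
    have hb2 : (QuotientGroup.mk' (R G)) b ^ 2 = 1 := by
      rw [← map_pow]
      have : b ^ 2 = 1 := hb
      rw [this, map_one]
    rw [map_pow, map_mul] at h3
    generalize (QuotientGroup.mk' (R G)) a = p at *
    generalize (QuotientGroup.mk' (R G)) b = q at *
    have h4 : (p * q)⁻¹ = p * q := inv_of_sq h3
    rw [mul_inv_rev, inv_of_sq ha2, inv_of_sq hb2] at h4
    exact h4.symm
  · rintro _ ⟨a, ha, rfl⟩
    rw [← map_pow]
    have : a ^ 2 = 1 := ha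
    rw [this, map_one]

theorem t_lf (H : H2 G) (h9 : H9 G) : ∀ F : Subgroup G, F.FG → F ≤ T G → Finite F := by
  intro F hF hFT
  haveI := r_normal (G := G)
  refine finite_of_sub hF (r_lf H h9).1 ?_
  have hFfg : Group.FG F := (Group.fg_iff_subgroup_fg F).mpr hF
  haveI : ((R G).subgroupOf F).Normal := r_normal.subgroupOf F
  have hQ : Finite (F ⧸ (R G).subgroupOf F) := by
    have hfgQ : Group.FG (F ⧸ (R G).subgroupOf F) := QuotientGroup.fg _
    refine H15.Struct.finite_exp4 hfgQ ?_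
    intro q
    obtain ⟨g, rfl⟩ := QuotientGroup.mk_surjective q
    rw [← QuotientGroup.mk_pow, QuotientGroup.eq_one_iff, mem_subgroupOf]
    have h1 : ((g ^ 4 : F) : G) = ((g : G) ^ 2) ^ 2 := by
      rw [← pow_mul]; rfl
    rw [h1]
    exact pow_mem (sq_mem_r H g.1 (hFT g.2)) 2
  haveI : ((R G).subgroupOf F).FiniteIndex := Subgroup.finiteIndex_of_finite_quotient
  exact Subgroup.FiniteIndex.index_ne_zero

theorem t_normal : (T G).Normal := by
  refine ⟨fun n hn g => ?_⟩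
  have h1 : T G ≤ (T G).comap (MulAut.conj g).toMonoidHom := by
    unfold T
    rw [closure_le]
    intro t ht
    have ht' : t ^ 2 = 1 := ht
    refine subset_closure ?_
    show (g * t * g⁻¹) ^ 2 = 1
    rw [conj_pow, ht']; simp
  exact h1 hn

/-- exponent `2 m` -/
theorem exp_lf (H : H2 G) (h9 : H9 G) (m : ℕ)
    (hm : ∀ (K : Type u) [Group K], Group.FG K → (∀ g : K, g ^ m = 1) → Finite K)
    (F : Subgroup G) (hF : F.FG) (h2m : ∀ g ∈ F, g ^ (2 * m) = 1) : Finite F := by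
  haveI := t_normal (G := G)
  refine finite_of_sub hF (t_lf H h9) ?_
  have hFfg : Group.FG F := (Group.fg_iff_subgroup_fg F).mpr hF
  haveI : ((T G).subgroupOf F).Normal := t_normal.subgroupOf F
  have hQ : Finite (F ⧸ (T G).subgroupOf F) := by
    have hfgQ : Group.FG (F ⧸ (T G).subgroupOf F) := QuotientGroup.fg _
    refine hm _ hfgQ ?_
    intro q
    obtain ⟨g, rfl⟩ := QuotientGroup.mk_surjective q
    rw [← QuotientGroup.mk_pow, QuotientGroup.eq_one_iff, mem_subgroupOf]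
    refine subset_closure ?_
    show ((g ^ m : F) : G) ^ 2 = 1
    have h1 : ((g ^ m : F) : G) ^ 2 = (g : G) ^ (2 * m) := by
      rw [SubmonoidClass.coe_pow, ← pow_mul, mul_comm]
    rw [h1]; exact h2m g.1 g.2
  haveI : ((T G).subgroupOf F).FiniteIndex := Subgroup.finiteIndex_of_finite_quotient
  exact Subgroup.FiniteIndex.index_ne_zero

/-- numbers not divisible by nine -/
theorem nine {w : G} {n : ℕ} (hn : ¬ 9 ∣ n) (h1 : w ^ n = 1) (h9 : w ^ 9 = 1) : w ^ 3 = 1 := by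
  have h2 : orderOf w ∣ 9 := orderOf_dvd_of_pow_eq_one h9
  have h3 : orderOf w ∣ n := orderOf_dvd_of_pow_eq_one h1
  have h4 : orderOf w = 1 ∨ orderOf w = 3 ∨ orderOf w = 9 := by
    have : orderOf w ∈ Nat.divisors 9 := Nat.mem_divisors.mpr ⟨h2, by norm_num⟩
    have e : Nat.divisors 9 = {1, 3, 9} := by decide +kernel
    rw [e] at this
    simpa using this
  apply orderOf_dvd_iff_pow_eq_one.mp
  rcases h4 with h | h | h
  · rw [h]; norm_num
  · rw [h]
  · rw [h] at h3; exact absurd h3 hn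

theorem h9_of {n : ℕ} (hn : ¬ 9 ∣ n) (h : ∀ g : G, g ^ n = 1) : H9 G :=
  fun _ _ _ _ _ _ _ _ h' => nine hn (h _) h'

/-- exponent twelve, no product of two involutions of order four -/
theorem h2_twelve (h : ∀ g : G, g ^ 12 = 1)
    (h4 : ∀ a b : G, a ^ 2 = 1 → b ^ 2 = 1 → (a * b) ^ 4 = 1 → (a * b) ^ 2 = 1) : H2 G := by
  intro a b ha hb
  -- `(a b)³ = a (b a b a b)` is a product of two involutions
  have h1 : (a * b) ^ 3 = a * (b * (a * b * a) * b) := by
    rw [pow_succ, pow_two]; simp only [mul_assoc]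
  have h2 : (b * (a * b * a) * b) ^ 2 = 1 := sq_conj (sq_conj hb ha) hb
  have h3 := h4 a _ ha h2
  rw [← h1, ← pow_mul, ← pow_mul] at h3
  exact h3 (h (a * b))

end Pool.Agent.H324.Alg
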