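import Pool.Agent.H324.DT.TC

/-!
Relators for the enumerations: rotations and reversals, and cubes of products of elements of a
set of involutions which is closed under conjugation by its elements.
-/

namespace Pool.Agent.H324.TC

set_option linter.unusedSectionVars false

variable {G : Type*} [Group G] {gen : ℕ → G}

/-- power of a word -/
def pwr (w : List ℕ) : ℕ → List ℕ
  | 0 => []
  | n + 1 => w ++ pwr w n

theorem ev_pwr (w : List ℕ) (n : ℕ) : ev gen (pwr w n) = ev gen w ^ n := by
  induction n with
  | zero => simp [pwr]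
  | succ n ih => rw [pwr, ev_append, ih, pow_succ']

/-- reversal (if `v`) and rotation by `k` letters -/
def rr (b : List ℕ) (v : Bool) (k : ℕ) : List ℕ :=
  (cond v b.reverse b).drop k ++ (cond v b.reverse b).take k

theorem ev_rr (hI : Invol gen) {b : List ℕ} (h : ev gen b = 1) (v : Bool) (k : ℕ) :
    ev gen (rr b v k) = 1 := by
  have h1 : ev gen (cond v b.reverse b) = 1 := by
    cases v with
    | true =>
      have := ev_irev hI b
      rw [h, inv_one] at this
      exact this
    | false => exact h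
  unfold rr
  rw [ev_append]
  rw [← List.take_append_drop k (cond v b.reverse b), ev_append] at h1
  exact mul_eq_one_iff_eq_inv.mpr (eq_inv_of_mul_eq_one_right h1)

/-- all relators are rotations of (reversed) base relators -/
theorem rels_of (hI : Invol gen) {bases : List (List ℕ)} (hb : ∀ b ∈ bases, ev gen b = 1)
    {rels : List (List ℕ)} (ix : List (ℕ × Bool × ℕ))
    (h : rels = ix.map fun q => rr (bases.getD q.1 []) q.2.1 q.2.2) :
    ∀ r ∈ rels, ev gen r = 1 := by
  intro r hr
  rw [h, List.mem_map] at hr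
  obtain ⟨q, _, rfl⟩ := hr
  refine ev_rr hI ?_ _ _
  by_cases hs : q.1 < bases.length
  · rw [List.getD_eq_getElem _ _ hs]; exact hb _ (List.getElem_mem hs)
  · rw [List.getD_eq_default _ _ (by omega)]; rfl

/-- a set of involutions, closed under conjugation by its elements, such that products of two
elements have trivial cube -/
structure DC (D : Set G) : Prop where
  sq : ∀ d ∈ D, d ^ 2 = 1
  conj : ∀ d ∈ D, ∀ e ∈ D, e * d * e ∈ D
  cube : ∀ d ∈ D, ∀ e ∈ D, (d * e) ^ 3 = 1

theorem DC.inv {D : Set G} (h : DC D) {d : G} (hd : d ∈ D) : d⁻¹ = d := by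
  have := h.sq d hd
  rw [pow_two] at this
  exact inv_eq_of_mul_eq_one_left this

theorem DC.invol {D : Set G} (h : DC D) (hD : ∀ g, gen g ∈ D) : Invol gen :=
  fun g => h.sq _ (hD g)

theorem DC.conj_ev {D : Set G} (h : DC D) (hD : ∀ g, gen g ∈ D) (p : List ℕ) :
    ∀ y ∈ D, (ev gen p)⁻¹ * y * ev gen p ∈ D := by
  induction p with
  | nil => intro y hy; simpa using hy
  | cons x p ih =>
    intro y hy
    have h1 := h.conj y hy (gen x) (hD x)
    have h2 := ih _ h1
    have h3 : (ev gen (x :: p))⁻¹ * y * ev gen (x :: p) =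
        (ev gen p)⁻¹ * (gen x * y * gen x) * ev gen p := by
      rw [ev_cons, mul_inv_rev]
      have : lv gen x = gen x := rfl
      rw [this, h.inv (hD x)]
      simp only [mul_assoc]
    rw [h3]; exact h2

/-- the conjugate of the letter `a` by the word `p` -/
def cj (q : List ℕ × ℕ) : List ℕ := q.1.reverse ++ q.2 :: q.1

theorem DC.ev_cj {D : Set G} (h : DC D) (hD : ∀ g, gen g ∈ D) (q : List ℕ × ℕ) :
    ev gen (cj q) ∈ D := by
  have h1 := h.conj_ev hD q.1 (gen q.2) (hD q.2)
  have h2 : ev gen (cj q) = (ev gen q.1)⁻¹ * gen q.2 * ev gen q.1 := by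
    have := ev_irev (h.invol hD) q.1
    rw [cj, ev_append, ev_cons, show q.1.reverse = irev q.1 from rfl, this, mul_assoc]
    rfl
  rw [h2]; exact h1

/-- cube of a product of two conjugates -/
def r2 (p q : List ℕ × ℕ) : List ℕ := pwr (cj p ++ cj q) 3

theorem DC.ev_r2 {D : Set G} (h : DC D) (hD : ∀ g, gen g ∈ D) (p q : List ℕ × ℕ) :
    ev gen (r2 p q) = 1 := by
  rw [r2, ev_pwr, ev_append]
  exact h.cube _ (h.ev_cj hD p) _ (h.ev_cj hD q)

/-- reduction: cancel equal neighbours -/
def push (g : ℕ) : List ℕ → List ℕ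
  | [] => [g]
  | h :: t => cond (Nat.beq g h) t (g :: h :: t)

/-- reduced word -/
def red : List ℕ → List ℕ
  | [] => []
  | g :: w => push g (red w)

theorem ev_push (hI : Invol gen) (g : ℕ) (w : List ℕ) :
    ev gen (push g w) = lv gen g * ev gen w := by
  cases w with
  | nil => rw [push, ev_cons]
  | cons h t =>
    rw [push]
    cases hb : Nat.beq g h with
    | false => rw [cond_false, ev_cons]
    | true =>
      have h1 := Nat.eq_of_beq_eq_true hb
      have h2 := hI h
      rw [pow_two] at h2
      rw [cond_true, h1, ev_cons, ← mul_assoc]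
      have h3 : lv gen h * lv gen h = 1 := h2
      rw [h3, one_mul]

theorem ev_red (hI : Invol gen) (w : List ℕ) : ev gen (red w) = ev gen w := by
  induction w with
  | nil => rfl
  | cons g w ih => rw [red, ev_push hI, ih, ev_cons]

/-- commutator `g⁻¹ h⁻¹ g h` -/
def cc (g h : G) : G := g⁻¹ * h⁻¹ * g * h

/-- commutator of words -/
def cw (u v : List ℕ) : List ℕ := irev u ++ irev v ++ u ++ v

theorem ev_cw (hI : Invol gen) (u v : List ℕ) : ev gen (cw u v) = cc (ev gen u) (ev gen v) := by
  simp only [cw, cc, ev_append, ev_irev hI]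

/-- four generators -/
def g4 (a b c d : G) : ℕ → G
  | 0 => a
  | 1 => b
  | 2 => c
  | _ => d

theorem g4_mem {D : Set G} {a b c d : G} (ha : a ∈ D) (hb : b ∈ D) (hc : c ∈ D) (hd : d ∈ D) :
    ∀ g, g4 a b c d g ∈ D := by
  intro g
  match g with
  | 0 => exact ha
  | 1 => exact hb
  | 2 => exact hc
  | _ + 3 => exact hd

theorem l0 (a b c d : G) : lv (g4 a b c d) 0 = a := rfl
theorem l1 (a b c d : G) : lv (g4 a b c d) 1 = b := rfl
theorem l2 (a b c d : G) : lv (g4 a b c d) 2 = c := rfl
theorem l3 (a b c d : G) : lv (g4 a b c d) 3 = d := rfl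

end Pool.Agent.H324.TC
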