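import Pool.Agent.H324.DT.Alg

/-!
Commutator calculus for a set `X` of elements of order three, closed under inverses, such that
products of four elements have trivial cube and three elements behave as in a group of
exponent three: commutators of weight four in elements of `X` are trivial.
-/

namespace Pool.Agent.H324.Alg

open Pool.Agent.H324.TC (cc)

variable {G : Type*} [Group G]

/-- the properties of the set `X` -/
structure XS (X : Set G) : Prop where
  one : (1 : G) ∈ X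
  inv : ∀ x ∈ X, x⁻¹ ∈ X
  cube4 : ∀ x ∈ X, ∀ y ∈ X, ∀ z ∈ X, ∀ t ∈ X, (x * y * (z * t)) ^ 3 = 1
  f2 : ∀ x ∈ X, ∀ y ∈ X, ∀ z ∈ X, cc (cc (cc x y) z) z = 1
  f3 : ∀ x ∈ X, ∀ y ∈ X, ∀ z ∈ X, cc (cc x y) z * cc x (cc y z) = 1
  f4 : ∀ x ∈ X, ∀ y ∈ X, ∀ z ∈ X, cc (cc x y) (cc x z) = 1
  mem : ∀ x ∈ X, ∀ y ∈ X, ∀ z ∈ X, cc (cc x y) z ∈ X

namespace XS

variable {X : Set G} (h : XS X)
include h

theorem cube2 {x y : G} (hx : x ∈ X) (hy : y ∈ X) : (x * y) ^ 3 = 1 := by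
  have := h.cube4 x hx y hy 1 h.one 1 h.one
  simpa using this

theorem cube1 {x : G} (hx : x ∈ X) : x ^ 3 = 1 := by
  have := h.cube2 hx h.one
  simpa using this

/-- two products of two elements -/
theorem cl4 {x y z t : G} (hx : x ∈ X) (hy : y ∈ X) (hz : z ∈ X) (ht : t ∈ X) :
    Commute (cc (x * y) (z * t)) (x * y) ∧ Commute (cc (x * y) (z * t)) (z * t) := by
  refine class_two (h.cube2 hx hy) (h.cube2 hz ht) (h.cube4 x hx y hy z hz t ht) ?_
  have := h.cube4 x hx y hy t⁻¹ (h.inv t ht) z⁻¹ (h.inv z hz)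
  rw [← mul_inv_rev] at this
  exact this

theorem cl3 {x z t : G} (hx : x ∈ X) (hz : z ∈ X) (ht : t ∈ X) :
    Commute (cc x (z * t)) x ∧ Commute (cc x (z * t)) (z * t) := by
  have := h.cl4 hx h.one hz ht
  rwa [mul_one] at this

theorem cl2 {x z : G} (hx : x ∈ X) (hz : z ∈ X) :
    Commute (cc x z) x ∧ Commute (cc x z) z := by
  have := h.cl3 hx hz h.one
  rwa [mul_one] at this

theorem c_inv_left {x y : G} (hx : x ∈ X) (hy : y ∈ X) : cc x⁻¹ y = (cc x y)⁻¹ :=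
  cc_inv_left (h.cl2 hx hy).1

theorem c_inv_right {x y : G} (hx : x ∈ X) (hy : y ∈ X) : cc x y⁻¹ = (cc x y)⁻¹ :=
  cc_inv_right (h.cl2 hx hy).2

theorem cyc {x y z : G} (hx : x ∈ X) (hy : y ∈ X) (hz : z ∈ X) :
    cc (cc x y) z = cc (cc y z) x := by
  have := h.f3 x hx y hy z hz
  rw [← cc_inv (cc y z) x] at this
  exact mul_inv_eq_one.mp this

theorem sz {x y z : G} (hx : x ∈ X) (hy : y ∈ X) (hz : z ∈ X) : Commute (cc (cc x y) z) z :=
  cc_eq_one.mp (h.f2 x hx y hy z hz)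

theorem sx {x y z : G} (hx : x ∈ X) (hy : y ∈ X) (hz : z ∈ X) : Commute (cc (cc x y) z) x := by
  rw [h.cyc hx hy hz]; exact h.sz hy hz hx

theorem sy {x y z : G} (hx : x ∈ X) (hy : y ∈ X) (hz : z ∈ X) : Commute (cc (cc x y) z) y := by
  rw [h.cyc hx hy hz]; exact h.sx hy hz hx

omit h in
theorem com_cc {s x y : G} (h1 : Commute s x) (h2 : Commute s y) : Commute s (cc x y) := by
  unfold cc
  exact ((h1.inv_right.mul_right h2.inv_right).mul_right h1).mul_right h2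

theorem swap12 {x y z : G} (hx : x ∈ X) (hy : y ∈ X) (hz : z ∈ X) :
    cc (cc y x) z = (cc (cc x y) z)⁻¹ := by
  rw [← cc_inv x y]
  exact cc_inv_left (com_cc (h.sx hx hy hz) (h.sy hx hy hz))

/-- an element of `X` commuting with `z` commutes with `cc y z` -/
theorem com1 {y z s : G} (hy : y ∈ X) (hz : z ∈ X) (hs : s ∈ X) (e : Commute s z) :
    Commute s (cc y z) := by
  have h1 : cc (cc y z) s = 1 := by
    rw [h.cyc hy hz hs, cc_eq_one.mpr e.symm, cc_one_left]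
  exact (cc_eq_one.mp h1).symm

theorem com2 {y z s : G} (hy : y ∈ X) (hz : z ∈ X) (hs : s ∈ X) (e : Commute s z) :
    Commute s (cc z y) := by
  rw [← cc_inv]; exact (h.com1 hy hz hs e).inv_right

/-- two triple commutators with two common entries commute -/
theorem ss {x y z t : G} (hx : x ∈ X) (hy : y ∈ X) (hz : z ∈ X) (ht : t ∈ X) :
    Commute (cc (cc x y) z) (cc (cc x y) t) := by
  have hu := h.mem x hx y hy t ht
  have h1 : Commute (cc (cc x y) t) (cc y z) := h.com2 hz hy hu (h.sy hx hy ht)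
  have h2 : Commute (cc (cc x y) t) x := h.sx hx hy ht
  rw [h.cyc hx hy hz]
  exact (com_cc h1 h2).symm

/-- `[x,q]` and `[y,q]` commute for `q = z t` -/
theorem q1 {x y z t : G} (hx : x ∈ X) (hy : y ∈ X) (hz : z ∈ X) (ht : t ∈ X) :
    Commute (cc x (z * t)) (cc y (z * t)) := by
  have a1 := (h.cl4 hx hy hz ht).2
  have a2 := h.cl3 hy hz ht
  have a3 := h.cl3 hx hz ht
  -- `cc (x y) q = y⁻¹ (cc x q) y * cc y q`
  rw [cc_mul_left] at a1
  have a4 : Commute (y⁻¹ * cc x (z * t) * y) (z * t) := by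
    have := a1.mul_left a2.2.inv_left
    rwa [mul_inv_cancel_right] at this
  have a5 : Commute (cc x (z * t)) (y * (z * t) * y⁻¹) := by
    have h1 : y * (y⁻¹ * cc x (z * t) * y) * y⁻¹ = cc x (z * t) := by group
    rw [← h1]
    exact (Commute.conj_iff y).mpr a4
  have a6 : (z * t)⁻¹ * (y * (z * t) * y⁻¹) = cc y (z * t) := by
    have h1 : (z * t)⁻¹ * (y * (z * t) * y⁻¹) = y * cc y (z * t) * y⁻¹ := by
      simp only [cc]; group
    rw [h1, (a2.1).eq.symm, mul_inv_cancel_right]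
  rw [← a6]
  exact (a3.2.inv_right).mul_right a5

omit h in
/-- `[x,z t] = [x,t] [x,z] [x,z,t]` -/
theorem q2 (x z t : G) : cc x (z * t) = cc x t * cc x z * cc (cc x z) t := by
  rw [cc_mul_right, conj_eq, mul_assoc]

theorem fourth {x y z t : G} (hx : x ∈ X) (hy : y ∈ X) (hz : z ∈ X) (ht : t ∈ X) :
    cc (cc x t) (cc y z) * cc (cc x z) (cc y t) = 1 := by
  have hS := h.mem x hx z hz t ht
  have hS' := h.mem y hy z hz t ht
  have k1 : Commute (cc (cc x z) t) (cc y t) := h.com1 hy ht hS (h.sz hx hz ht)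
  have k2 : Commute (cc (cc x z) t) (cc y z) := h.com1 hy hz hS (h.sy hx hz ht)
  have k3 : Commute (cc (cc y z) t) (cc x t) := h.com1 hx ht hS' (h.sz hy hz ht)
  have k4 : Commute (cc (cc y z) t) (cc x z) := h.com1 hx hz hS' (h.sy hy hz ht)
  have k5 : Commute (cc (cc x z) t) (cc (cc y z) t) := by
    have k5 := h.ss hz ht hx hy
    rw [← h.cyc hx hz ht, ← h.cyc hy hz ht] at k5
    exact k5
  have k6 := h.q1 hx hy hz ht
  rw [q2, q2] at k6
  have k7 : Commute (cc x t * cc x z) (cc y t * cc y z * cc (cc y z) t) := by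
    have := k6.mul_left (((k1.mul_right k2).mul_right k5).inv_left)
    rwa [mul_inv_cancel_right] at this
  have k8 : Commute (cc x t * cc x z) (cc y t * cc y z) := by
    have := k7.mul_right ((k3.mul_right k4).symm.inv_right)
    rwa [mul_inv_cancel_right] at this
  refine four ?_ ?_ ?_ ?_ k8
  · exact cc_eq_one.mp (h.f4 x hx t ht z hz)
  · exact cc_eq_one.mp (h.f4 y hy t ht z hz)
  · have := h.q1 hx hy ht h.one
    rwa [mul_one] at this
  · have := h.q1 hx hy hz h.one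
    rwa [mul_one] at this

theorem xx_comm {x z t : G} (hx : x ∈ X) (hz : z ∈ X) (ht : t ∈ X) :
    Commute (cc x t) (cc x z) := cc_eq_one.mp (h.f4 x hx t ht z hz)

theorem yy_comm {x y z : G} (hx : x ∈ X) (hy : y ∈ X) (hz : z ∈ X) :
    Commute (cc x z) (cc y z) := by
  have := h.q1 hx hy hz h.one
  rwa [mul_one] at this

/-- `[[x,z],[y,t]]` commutes with `[x,z]` and `[y,t]` -/
theorem phi_comm {x y z t : G} (hx : x ∈ X) (hy : y ∈ X) (hz : z ∈ X) (ht : t ∈ X) :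
    Commute (cc (cc x z) (cc y t)) (cc x z) ∧ Commute (cc (cc x z) (cc y t)) (cc y t) := by
  have h1 : cc (cc x z) (cc y t) = (cc (cc x t) (cc y z))⁻¹ :=
    eq_inv_of_mul_eq_one_right (h.fourth hx hy hz ht)
  rw [h1]
  have k1 : Commute (cc x z) (cc x t) := h.xx_comm hx ht hz
  have k2 : Commute (cc x z) (cc y z) := h.yy_comm hx hy hz
  have k3 : Commute (cc y t) (cc x t) := h.yy_comm hy hx ht
  have k4 : Commute (cc y t) (cc y z) := h.xx_comm hy hz ht
  exact ⟨((com_cc k1 k2).symm).inv_left, ((com_cc k3 k4).symm).inv_left⟩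

theorem e24 {x y z t : G} (hx : x ∈ X) (hy : y ∈ X) (hz : z ∈ X) (ht : t ∈ X) :
    cc (cc x t) (cc y z) = (cc (cc x z) (cc y t))⁻¹ :=
  eq_inv_of_mul_eq_one_left (h.fourth hx hy hz ht)

theorem e12 {x y z t : G} (hx : x ∈ X) (hy : y ∈ X) (hz : z ∈ X) (ht : t ∈ X) :
    cc (cc z x) (cc y t) = (cc (cc x z) (cc y t))⁻¹ := by
  rw [← cc_inv x z]
  exact cc_inv_left (h.phi_comm hx hy hz ht).1

theorem e34 {x y z t : G} (hx : x ∈ X) (hy : y ∈ X) (hz : z ∈ X) (ht : t ∈ X) :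
    cc (cc x z) (cc t y) = (cc (cc x z) (cc y t))⁻¹ := by
  rw [← cc_inv y t]
  exact cc_inv_right (h.phi_comm hx hy hz ht).2

/-- commutators of elements of `X` commute -/
theorem cc_comm {x y z t : G} (hx : x ∈ X) (hy : y ∈ X) (hz : z ∈ X) (ht : t ∈ X) :
    Commute (cc x z) (cc y t) := by
  rw [← cc_eq_one]
  set p := cc (cc x z) (cc y t) with hp
  -- eight transpositions from `(x,z,y,t)` to `(y,t,x,z)`
  have s1 : cc (cc x t) (cc y z) = p⁻¹ := h.e24 hx hy hz ht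
  have s2 : cc (cc t x) (cc y z) = p := by rw [h.e12 hx hy ht hz, s1, inv_inv]
  have s3 : cc (cc t z) (cc y x) = p⁻¹ := by rw [h.e24 ht hy hx hz, s2]
  have s4 : cc (cc z t) (cc y x) = p := by rw [h.e12 ht hy hz hx, s3, inv_inv]
  have s5 : cc (cc z t) (cc x y) = p⁻¹ := by rw [h.e34 hz hy ht hx, s4]
  have s6 : cc (cc z y) (cc x t) = p := by rw [h.e24 hz hx ht hy, s5, inv_inv]
  have s7 : cc (cc y z) (cc x t) = p⁻¹ := by rw [h.e12 hz hx hy ht, s6]
  have s8 : cc (cc y t) (cc x z) = p := by rw [h.e24 hy hx hz ht, s7, inv_inv]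
  have s9 : cc (cc y t) (cc x z) = p⁻¹ := by rw [hp, cc_inv]
  have s10 : p = p⁻¹ := s8.symm.trans s9
  have s11 : p ^ 3 = 1 := by
    rw [hp, ← cc_pow_left (h.phi_comm hx hy hz ht).1, ← cc_pow_left (h.cl2 hx hz).1, h.cube1 hx,
      cc_one_left, cc_one_left]
  have s12 : p * p = 1 := by
    have : p * p = p * p⁻¹ := congrArg (fun w => p * w) s10
    rw [this, mul_inv_cancel]
  rw [pow_succ, pow_two, s12, one_mul] at s11
  exact s11

/-- `[x,y,z,t] = [x,y,t,z]` -/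
theorem g34 {x y z t : G} (hx : x ∈ X) (hy : y ∈ X) (hz : z ∈ X) (ht : t ∈ X) :
    cc (cc (cc x y) t) z = cc (cc (cc x y) z) t := by
  have hs := h.mem x hx y hy z hz
  have hu := h.mem x hx y hy t ht
  set c := cc x y with hc
  set s := cc c z with hsd
  set u := cc c t with hud
  have w1 : c⁻¹ * cc z t * c = cc z t := conj_of (h.cc_comm hz hx ht hy)
  have e1 : c⁻¹ * z * c = z * s⁻¹ := by rw [conj_eq z c, hsd, cc_inv c z]
  have e2 : c⁻¹ * t * c = t * u⁻¹ := by rw [conj_eq t c, hud, cc_inv c t]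
  have e3 : c⁻¹ * cc z t * c = cc (z * s⁻¹) (t * u⁻¹) := by
    rw [← e1, ← e2]; simp only [cc]; group
  rw [e3, cc_mul_left, cc_mul_right, cc_mul_right] at w1
  -- commutation
  have su : Commute s u := h.ss hx hy hz ht
  have sz : Commute s z := h.sz hx hy hz
  have ut : Commute u t := h.sz hx hy ht
  have s_zt : Commute s (cc z t) := h.com2 ht hz hs sz
  have u_zt : Commute u (cc z t) := h.com1 hz ht hu ut
  have s_zu : Commute s (cc z u) := com_cc sz su
  have u_st : Commute u (cc s t) := com_cc su.symm ut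
  have c1 : cc z u⁻¹ = (cc z u)⁻¹ := h.c_inv_right hz hu
  have c2 : cc s⁻¹ t = (cc s t)⁻¹ := h.c_inv_left hs ht
  have c3 : cc s⁻¹ u⁻¹ = 1 := cc_eq_one.mpr (su.inv_left.inv_right)
  have c4 : (u⁻¹)⁻¹ * cc z t * u⁻¹ = cc z t := conj_of (u_zt.symm.inv_right)
  have c5 : (u⁻¹)⁻¹ * cc s⁻¹ t * u⁻¹ = (cc s t)⁻¹ := by
    rw [c2]; exact conj_of ((u_st.symm.inv_left).inv_right)
  rw [c4, c5, c3, c1, one_mul] at w1
  have c6 : (s⁻¹)⁻¹ * ((cc z u)⁻¹ * cc z t) * s⁻¹ = (cc z u)⁻¹ * cc z t :=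
    conj_of ((s_zu.symm.inv_left.mul_left s_zt.symm).inv_right)
  rw [c6] at w1
  have c7 : Commute (cc z t) (cc s t) := h.yy_comm hz hs ht
  have c8 : (cc z u)⁻¹ * (cc s t)⁻¹ = 1 := by
    have h1 : (cc z u)⁻¹ * cc z t * (cc s t)⁻¹ = (cc z u)⁻¹ * (cc s t)⁻¹ * cc z t := by
      rw [mul_assoc, (c7.inv_right).eq, mul_assoc]
    rw [h1] at w1
    exact mul_eq_right.mp w1
  have c9 : cc s t = (cc z u)⁻¹ := by
    have := eq_inv_of_mul_eq_one_right c8
    rw [inv_inv] at this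
    rw [← inv_inv (cc s t), this]
  rw [c9, cc_inv]

/-- **Commutators of weight four are trivial.** -/
theorem weight4 {x y z t : G} (hx : x ∈ X) (hy : y ∈ X) (hz : z ∈ X) (ht : t ∈ X) :
    Commute (cc (cc x y) z) t := by
  rw [← cc_eq_one]
  set p := cc (cc (cc x y) z) t with hp
  -- transposition (2 3) inverts
  have t23 : ∀ {x y z t : G}, x ∈ X → y ∈ X → z ∈ X → t ∈ X →
      cc (cc (cc x z) y) t = (cc (cc (cc x y) z) t)⁻¹ := by
    intro x y z t hx hy hz ht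
    have h1 : cc (cc x z) y = (cc (cc x y) z)⁻¹ := by
      rw [h.cyc hx hz hy, h.swap12 hy hz hx, ← h.cyc hx hy hz]
    rw [h1]
    exact h.c_inv_left (h.mem x hx y hy z hz) ht
  have a1 : cc (cc (cc x z) y) t = p⁻¹ := t23 hx hy hz ht
  have a2 : cc (cc (cc x z) t) y = p⁻¹ := by rw [h.g34 hx hz hy ht, a1]
  have a3 : cc (cc (cc x t) z) y = p := by rw [t23 hx hz ht hy, a2, inv_inv]
  have b1 : cc (cc (cc x y) t) z = p := h.g34 hx hy hz ht
  have b2 : cc (cc (cc x t) y) z = p⁻¹ := by rw [t23 hx hy ht hz, b1]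
  have b3 : cc (cc (cc x t) z) y = p⁻¹ := by rw [h.g34 hx ht hy hz, b2]
  have s10 : p = p⁻¹ := a3.symm.trans b3
  have hs := h.mem x hx y hy z hz
  have s11 : p ^ 3 = 1 := by
    rw [hp, ← cc_pow_left (h.cl2 hs ht).1, h.cube1 hs, cc_one_left]
  have s12 : p * p = 1 := by
    have : p * p = p * p⁻¹ := congrArg (fun w => p * w) s10
    rw [this, mul_inv_cancel]
  rw [pow_succ, pow_two, s12, one_mul] at s11
  exact s11

end XS

end Pool.Agent.H324.Alg
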